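import Pool.Agent.KK.StmtsV

/-!
# Squad KK, block BETA: row LAB (change of the partition)
-/

set_option autoImplicit false
set_option linter.unusedSectionVars false

namespace Pool.Agent.KK.H33

open Pool.Agent.KK

variable {V : Type} [Fintype V] [DecidableEq V]

/-- the lists with the given fixed vertices -/
def FxL : List (Slot V) → Finset (List V)
  | [] => {[]}
  | Sum.inl v :: s => (FxL s).image (List.cons v)
  | Sum.inr _ :: s => (Finset.univ ×ˢ FxL s).image fun p => p.1 :: p.2

/-- the lists with a vertex of `S` in a free slot -/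
def GxL (S : Finset V) : List (Slot V) → Finset (List V)
  | [] => ∅
  | Sum.inl v :: s => (GxL S s).image (List.cons v)
  | Sum.inr _ :: s => ((S ×ˢ FxL s).image fun p => p.1 :: p.2) ∪
      ((Finset.univ ×ˢ GxL S s).image fun p => p.1 :: p.2)

theorem fr_nil : fr ([] : List (Slot V)) = 0 := rfl

theorem fr_inl (v : V) (s : List (Slot V)) : fr (Sum.inl v :: s) = fr s := by
  unfold fr
  rw [List.countP_cons_of_neg]
  simp

theorem fr_inr (b : Bool) (s : List (Slot V)) : fr (Sum.inr b :: s) = fr s + 1 := by
  unfold fr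
  rw [List.countP_cons_of_pos]
  simp

theorem card_FxL (s : List (Slot V)) : (FxL s).card ≤ Fintype.card V ^ fr s := by
  induction s with
  | nil => simp [FxL, fr_nil]
  | cons x s ih =>
    rcases x with v | b
    · rw [fr_inl]
      show ((FxL s).image (List.cons v)).card ≤ _
      exact Finset.card_image_le.trans ih
    · rw [fr_inr, pow_succ]
      show ((Finset.univ ×ˢ FxL s).image fun p => p.1 :: p.2).card ≤ _
      refine Finset.card_image_le.trans ?_
      rw [Finset.card_product, Finset.card_univ, mul_comm]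
      exact Nat.mul_le_mul_right _ ih

theorem card_GxL (S : Finset V) (s : List (Slot V)) :
    (GxL S s).card * Fintype.card V ≤ fr s * S.card * Fintype.card V ^ fr s := by
  induction s with
  | nil => simp [GxL]
  | cons x s ih =>
    rcases x with v | b
    · rw [fr_inl]
      show ((GxL S s).image (List.cons v)).card * _ ≤ _
      exact (Nat.mul_le_mul_right _ Finset.card_image_le).trans ih
    · rw [fr_inr]
      show ((((S ×ˢ FxL s).image fun p => p.1 :: p.2) ∪
        ((Finset.univ ×ˢ GxL S s).image fun p => p.1 :: p.2))).card * _ ≤ _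
      have h1 : (((S ×ˢ FxL s).image fun p => p.1 :: p.2) ∪
          ((Finset.univ ×ˢ GxL S s).image fun p => p.1 :: p.2)).card ≤
          S.card * Fintype.card V ^ fr s + Fintype.card V * (GxL S s).card := by
        refine (Finset.card_union_le _ _).trans (Nat.add_le_add ?_ ?_)
        · refine Finset.card_image_le.trans ?_
          rw [Finset.card_product]
          exact Nat.mul_le_mul_left _ (card_FxL s)
        · refine Finset.card_image_le.trans ?_
          rw [Finset.card_product, Finset.card_univ]
      calc _ ≤ (S.card * Fintype.card V ^ fr s + Fintype.card V * (GxL S s).card) *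
            Fintype.card V := Nat.mul_le_mul_right _ h1
        _ = S.card * Fintype.card V ^ fr s * Fintype.card V +
            Fintype.card V * ((GxL S s).card * Fintype.card V) := by ring
        _ ≤ S.card * Fintype.card V ^ fr s * Fintype.card V +
            Fintype.card V * (fr s * S.card * Fintype.card V ^ fr s) :=
            Nat.add_le_add_left (Nat.mul_le_mul_left _ ih) _
        _ = (fr s + 1) * S.card * Fintype.card V ^ (fr s + 1) := by
            rw [pow_succ]
            ring

theorem mem_FxL {X : Finset V} {s : List (Slot V)} {e : List V}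
    (h : List.Forall₂ (Fit X) s e) : e ∈ FxL s := by
  induction h with
  | nil => simp [FxL]
  | @cons x w s e hx _ ih =>
    rcases x with v | b
    · have hv : v = w := hx
      subst hv
      exact Finset.mem_image_of_mem _ ih
    · exact Finset.mem_image.2 ⟨(w, e), Finset.mem_product.2 ⟨Finset.mem_univ _, ih⟩, rfl⟩

theorem fit_change {X X' : Finset V} {s : List (Slot V)} {e : List V}
    (h : List.Forall₂ (Fit X') s e) :
    List.Forall₂ (Fit X) s e ∨ e ∈ GxL (symmDiff X X') s := by
  induction h with
  | nil => exact Or.inl List.Forall₂.nil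
  | @cons x w s e hx hs ih =>
    rcases x with v | b
    · have hv : v = w := hx
      subst hv
      rcases ih with ih | ih
      · exact Or.inl (List.Forall₂.cons rfl ih)
      · exact Or.inr (Finset.mem_image_of_mem _ ih)
    · by_cases hw : w ∈ symmDiff X X'
      · refine Or.inr (Finset.mem_union_left _ (Finset.mem_image.2 ⟨(w, e),
          Finset.mem_product.2 ⟨hw, mem_FxL hs⟩, rfl⟩))
      · rcases ih with ih | ih
        · left
          refine List.Forall₂.cons ?_ ih
          have hx' : w ∈ X' ↔ b = true := hx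
          show w ∈ X ↔ b = true
          rw [← hx']
          rw [Finset.mem_symmDiff] at hw
          tauto
        · exact Or.inr (Finset.mem_union_right _ (Finset.mem_image.2 ⟨(w, e),
            Finset.mem_product.2 ⟨Finset.mem_univ _, ih⟩, rfl⟩))

theorem fr_le (s : List (Slot V)) : fr s ≤ s.length := List.countP_le_length

theorem lab1 (H : Finset (Finset V)) (X X' : Finset V) (k : ℕ)
    (ε ρ : ℝ) (L : List (Slot V)) (hρ : 0 ≤ ρ)
    (hS : ((symmDiff X X').card : ℝ) ≤ ρ * (Fintype.card V : ℝ)) (h : OKl H X k ε L) :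
    OKl H X' k (ε + k * ρ) L := by
  intro s hs hk
  have h0 := h s hs hk
  unfold OKs at h0 ⊢
  have hV : (0 : ℝ) ≤ (Fintype.card V : ℝ) := Nat.cast_nonneg _
  rcases Nat.eq_zero_or_pos (Fintype.card V) with hV0 | hV0
  · have hXX : X' = X := by
      have := Fintype.card_eq_zero_iff.1 hV0
      exact Subsingleton.elim _ _
    rw [hXX]
    refine h0.trans (mul_le_mul_of_nonneg_right ?_ (by positivity))
    have : 0 ≤ (k : ℝ) * ρ := by positivity
    linarith
  · have hVR : (0 : ℝ) < (Fintype.card V : ℝ) := by exact_mod_cast hV0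
    have hsub : BadC H X' s ⊆ BadC H X s ∪ (GxL (symmDiff X X') s : Set (List V)) := by
      rintro e ⟨h1, h2, h3⟩
      rcases fit_change (X := X) h1 with h4 | h4
      · exact Or.inl ⟨h4, h2, h3⟩
      · exact Or.inr (Finset.mem_coe.2 h4)
    have hfin : (BadC H X s).Finite :=
      (FxL s).finite_toSet.subset fun e he => Finset.mem_coe.2 (mem_FxL he.1)
    have h1 : (BadC H X' s).ncard ≤ (BadC H X s).ncard + (GxL (symmDiff X X') s).card := by
      rw [← Set.ncard_coe_finset]
      exact (Set.ncard_le_ncard hsub (hfin.union (Finset.finite_toSet _))).trans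
        (Set.ncard_union_le _ _)
    have h2 : ((GxL (symmDiff X X') s).card : ℝ) ≤ k * ρ * (Fintype.card V : ℝ) ^ fr s := by
      have h3 : ((GxL (symmDiff X X') s).card : ℝ) * (Fintype.card V : ℝ) ≤
          (fr s : ℝ) * ((symmDiff X X').card : ℝ) * (Fintype.card V : ℝ) ^ fr s := by
        exact_mod_cast card_GxL (symmDiff X X') s
      have h4 : (fr s : ℝ) ≤ k := by
        have := fr_le s
        rw [hk] at this
        exact_mod_cast this
      have h5 : (fr s : ℝ) * ((symmDiff X X').card : ℝ) * (Fintype.card V : ℝ) ^ fr s ≤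
          (k * ρ * (Fintype.card V : ℝ) ^ fr s) * (Fintype.card V : ℝ) := by
        calc (fr s : ℝ) * ((symmDiff X X').card : ℝ) * (Fintype.card V : ℝ) ^ fr s
            ≤ k * (ρ * (Fintype.card V : ℝ)) * (Fintype.card V : ℝ) ^ fr s := by
              refine mul_le_mul_of_nonneg_right ?_ (by positivity)
              exact mul_le_mul h4 hS (Nat.cast_nonneg _) (Nat.cast_nonneg _)
          _ = _ := by ring
      exact le_of_mul_le_mul_right (h3.trans h5) hVR
    have h6 : ((BadC H X' s).ncard : ℝ) ≤ ((BadC H X s).ncard : ℝ) +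
        ((GxL (symmDiff X X') s).card : ℝ) := by exact_mod_cast h1
    calc ((BadC H X' s).ncard : ℝ) ≤ _ := h6
      _ ≤ ε * (Fintype.card V : ℝ) ^ fr s + k * ρ * (Fintype.card V : ℝ) ^ fr s :=
          add_le_add h0 h2
      _ = _ := by ring

theorem lab2 (X X' : Finset V) (L : List (Slot V)) : cX X L ≤ cX X' L + (fx L).length := by
  induction L with
  | nil => simp [cX, fx]
  | cons x L ih =>
    rcases x with v | b
    · have h1 : cX X (Sum.inl v :: L) ≤ cX X L + 1 := by
        unfold cX
        rw [List.countP_cons]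
        split_ifs <;> omega
      have h2 : cX X' L ≤ cX X' (Sum.inl v :: L) := by
        unfold cX
        rw [List.countP_cons]
        omega
      have h3 : (fx (Sum.inl v :: L)).length = (fx L).length + 1 := by
        simp [fx]
      omega
    · have h1 : cX X (Sum.inr b :: L) = cX X L + (if b then 1 else 0) := by
        unfold cX
        rw [List.countP_cons]
      have h2 : cX X' (Sum.inr b :: L) = cX X' L + (if b then 1 else 0) := by
        unfold cX
        rw [List.countP_cons]
      have h3 : (fx (Sum.inr b :: L)).length = (fx L).length := by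
        unfold fx
        rw [List.filterMap_cons_none rfl]
      omega

/-- **LAB** -/
theorem lab : LabStmt := by
  classical
  refine ⟨?_, ?_, ?_⟩
  · intro V _ _ H X X' k ε ρ L hρ hS h
    exact lab1 H X X' k ε ρ L hρ hS h
  · intro V _ _ X X' L
    exact lab2 X X' L
  · intro V _ _ H X X' D k p ε ρ K K' q u v N a hρ hK' hS hR hK
    by_contra hcon
    push Not at hcon
    have hex : ∀ a' : ℕ, ∃ Z : Finset V, Disjoint Z D ∧ (Z.card : ℝ) ≤ K' ∧
        (a ≤ a' + q → a' ≤ a + q → ¬ ∃ L : List (Slot V), L.length = N ∧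
          cX X' L = a' ∧ (fx L).length ≤ q ∧ (∀ x ∈ fx L, x ∉ Z) ∧ (∀ x ∈ D, x ∈ fx L) ∧
          Lst H X' k p (ε + k * ρ) u v L) := by
      intro a'
      by_cases h1 : a ≤ a' + q ∧ a' ≤ a + q
      · have h2 := hcon a' h1.1 h1.2
        unfold Rea at h2
        push Not at h2
        obtain ⟨Z, hZ1, hZ2, hZ3⟩ := h2
        refine ⟨Z, hZ1, hZ2, fun _ _ => ?_⟩
        rintro ⟨L, l1, l2, l3, l4, l5, l6⟩
        exact hZ3 L l1 l2 l3 l4 l5 l6
      · refine ⟨∅, Finset.disjoint_empty_left _, by simpa using hK', fun h2 h3 => ?_⟩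
        exact absurd ⟨h2, h3⟩ h1
    choose Z hZ1 hZ2 hZ3 using hex
    obtain ⟨L, l1, l2, l3, l4, l5, l6⟩ := hR ((Finset.Icc (a - q) (a + q)).biUnion Z)
      (by
        rw [Finset.disjoint_biUnion_left]
        exact fun i _ => hZ1 i)
      (by
        have h1 : ((((Finset.Icc (a - q) (a + q)).biUnion Z).card : ℕ) : ℝ) ≤
            ∑ i ∈ Finset.Icc (a - q) (a + q), ((Z i).card : ℝ) := by
          exact_mod_cast Finset.card_biUnion_le
        have h2 : ∑ i ∈ Finset.Icc (a - q) (a + q), ((Z i).card : ℝ) ≤
            ∑ _i ∈ Finset.Icc (a - q) (a + q), K' := Finset.sum_le_sum fun i _ => hZ2 i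
        rw [Finset.sum_const, Nat.card_Icc, nsmul_eq_mul] at h2
        have h3 : ((a + q + 1 - (a - q) : ℕ) : ℝ) ≤ 2 * q + 1 := by
          have : a + q + 1 - (a - q) ≤ 2 * q + 1 := by omega
          exact_mod_cast this
        have h4 := mul_le_mul_of_nonneg_right h3 hK'
        linarith)
    have e1 := lab2 X X' L
    have e2 := lab2 X' X L
    rw [l2] at e1 e2
    have e3 : a ≤ cX X' L + q := by omega
    have e4 : cX X' L ≤ a + q := by omega
    refine hZ3 (cX X' L) e3 e4 ⟨L, l1, rfl, l3, fun x hx hxZ => l4 x hx ?_, l5, ?_⟩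
    · exact Finset.mem_biUnion.2 ⟨cX X' L, Finset.mem_Icc.2 ⟨by omega, e4⟩, hxZ⟩
    · obtain ⟨m1, m2, m3, m4, m5, m6⟩ := l6
      exact ⟨m1, m2, m3, m4, lab1 H X X' k ε ρ _ hρ hS m5, m6⟩

end Pool.Agent.KK.H33
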